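import Pool.Agent.Lib_helper75.LUR.Proof

open Pool.Agent.Lib_helper75.LUR

namespace Pool.Agent.Results.MP_ea77cd_an.NoLUR

/-- **Negative answer to the John–Zizler question.**  Over `𝕜 = ℝ` or `ℂ` there is a Banach space
with an extended Markushevich basis on which no equivalent norm is locally uniformly convex. -/
theorem result (𝕜 : Type) [RCLike 𝕜] :
    ∃ (E : Type) (_ : NormedAddCommGroup E) (_ : NormedSpace 𝕜 E) (_ : CompleteSpace E),
      (∃ (I : Type) (x : I → E) (f : I → (E →L[𝕜] 𝕜)), IsExtendedMBasis 𝕜 x f) ∧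
      ∀ N : Seminorm 𝕜 E, IsEquivalentNorm 𝕜 N → ¬ IsLUR 𝕜 N :=
  main 𝕜

end Pool.Agent.Results.MP_ea77cd_an.NoLUR
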